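import Mathlib
import Pool.Agent.N546.PN.Stm

/-!
# PN/LIN: values of a form on a line (helper999, for helper546)
-/

set_option autoImplicit false

namespace Pool.Agent.N999.PN

open Pool.Agent.N546.PN Finset

theorem mono {n e : ℕ} {K : Type} [Field K] (b : Fin (n + 1) → ℤ) (i₁ : Fin (n + 1))
    (m : Mon n (e + 1)) (x y : K) :
    ∏ i, (x * (b i : K) + if i = i₁ then y else 0) ^ (m.1 i) =
      ∑ j : Fin (e + 2), (((m.1 i₁).choose j : ℕ) : K) *
        (∏ i, (b i : K) ^ (m.1 i - if i = i₁ then (j : ℕ) else 0)) * x ^ (e + 1 - (j : ℕ)) *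
          y ^ (j : ℕ) := by
  have hm : ∑ i, m.1 i = e + 1 := (Finset.mem_piAntidiag.1 m.2).1
  obtain ⟨k, hk⟩ : ∃ k, k = m.1 i₁ := ⟨_, rfl⟩
  obtain ⟨r, hr⟩ : ∃ r, r = ∑ i ∈ univ.erase i₁, m.1 i := ⟨_, rfl⟩
  have hkr : k + r = e + 1 := by
    rw [hk, hr]
    exact (Finset.add_sum_erase univ _ (mem_univ i₁)).trans hm
  obtain ⟨B, hB⟩ : ∃ B : K, B = ∏ i ∈ univ.erase i₁, (b i : K) ^ (m.1 i) := ⟨_, rfl⟩
  have h1 : ∏ i ∈ univ.erase i₁, (x * (b i : K) + if i = i₁ then y else 0) ^ (m.1 i) = x ^ r * B := by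
    rw [hr, hB, ← Finset.prod_pow_eq_pow_sum, ← Finset.prod_mul_distrib]
    refine Finset.prod_congr rfl fun i hi => ?_
    rw [if_neg (Finset.ne_of_mem_erase hi), add_zero, mul_pow]
  have h2 : ∀ j : ℕ, ∏ i, (b i : K) ^ (m.1 i - if i = i₁ then j else 0) =
      (b i₁ : K) ^ (k - j) * B := by
    intro j
    rw [← Finset.mul_prod_erase univ _ (mem_univ i₁), if_pos rfl, ← hk, hB]
    congr 1
    refine Finset.prod_congr rfl fun i hi => ?_
    rw [if_neg (Finset.ne_of_mem_erase hi), Nat.sub_zero]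
  rw [← Finset.mul_prod_erase univ _ (mem_univ i₁), h1, if_pos rfl, ← hk]
  simp only [h2]
  rw [Fin.sum_univ_eq_sum_range (fun j : ℕ => ((k.choose j : ℕ) : K) * ((b i₁ : K) ^ (k - j) * B) *
    x ^ (e + 1 - j) * y ^ j) (e + 2)]
  have h3 : range (k + 1) ⊆ range (e + 2) := by
    intro j hj
    rw [mem_range] at hj ⊢
    omega
  rw [← Finset.sum_subset h3 (fun j _ hj => by
    rw [mem_range] at hj
    rw [Nat.choose_eq_zero_of_lt (by omega)]
    simp)]
  rw [add_comm, add_pow, Finset.sum_mul]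
  refine Finset.sum_congr rfl fun j hj => ?_
  rw [mem_range] at hj
  have h4 : e + 1 - j = (k - j) + r := by omega
  rw [h4, mul_pow, pow_add]
  ring

theorem lin_ : S_LIN := by
  intro n e b i₁ c K _ x y
  unfold bval Pool.Agent.N546.PN.val line
  simp only [mono b i₁ _ x y, Finset.mul_sum]
  rw [Finset.sum_comm]
  refine Finset.sum_congr rfl fun j _ => ?_
  push_cast
  rw [Finset.sum_mul, Finset.sum_mul]
  refine Finset.sum_congr rfl fun m _ => ?_
  ring

end Pool.Agent.N999.PN
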